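import Pool.Agent.V8H33.GJ.Fin
import Pool.Agent.V8H33.GJ.Count

set_option autoImplicit false

namespace Pool.Agent.Results.MP_1f68be_co.EnclosedExponent

/-- Points of Euclidean d-space. -/
abbrev Pt (d : ℕ) := EuclideanSpace ℝ (Fin d)

/-- `A` is the vertex set of a face (possibly of the whole polytope) of the polytope with vertex
set `V`: the set of vertices at which some linear functional is maximal. -/
def IsFace {d : ℕ} (V A : Set (Pt d)) : Prop :=
  ∃ l : Pt d →L[ℝ] ℝ, ∀ x, x ∈ A ↔ (x ∈ V ∧ ∀ w ∈ V, l w ≤ l x)

/-- `V` is the vertex set of a d-polytope. -/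
def IsVertexSet {d : ℕ} (V : Finset (Pt d)) : Prop :=
  affineSpan ℝ (V : Set (Pt d)) = ⊤ ∧ ∀ v ∈ V, v ∉ convexHull ℝ ((V : Set (Pt d)) \ {v})

/-- All proper faces of the polytope with vertex set `V` are simplices. -/
def Simplicial {d : ℕ} (V : Finset (Pt d)) : Prop :=
  ∀ A : Set (Pt d), IsFace (V : Set (Pt d)) A → A ≠ (V : Set (Pt d)) →
    AffineIndependent ℝ (Subtype.val : A → Pt d)

/-- The polytopes with vertex sets `V` and `W` are combinatorially equivalent: a bijection of the
vertices preserves faces in both directions. -/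
def Isomorphic {d : ℕ} (V W : Finset (Pt d)) : Prop :=
  ∃ f : Pt d → Pt d, Set.BijOn f (V : Set (Pt d)) (W : Set (Pt d)) ∧
    ∀ A : Set (Pt d), A ⊆ (V : Set (Pt d)) →
      (IsFace (V : Set (Pt d)) A ↔ IsFace (W : Set (Pt d)) (f '' A))

/-- Some polytope isomorphic to the polytope with vertex set `V` is contained in a closed ball and
has exactly `s` vertices in a chosen set `T` of vertices on the bounding sphere. -/
def Realizes {d : ℕ} (V : Finset (Pt d)) (s : ℕ) : Prop :=
  ∃ (W : Finset (Pt d)) (c : Pt d) (r : ℝ), IsVertexSet W ∧ Isomorphic V W ∧ 0 < r ∧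
    (∀ w ∈ W, dist w c ≤ r) ∧ ∃ T : Finset (Pt d), T ⊆ W ∧ (∀ w ∈ T, dist w c = r) ∧ T.card = s

/-- The largest number of vertices on a sphere enclosing an isomorphic polytope. -/
noncomputable def sphereNumber {d : ℕ} (V : Finset (Pt d)) : ℕ := sSup {s | Realizes V s}

/-- The inscribability exponent of the simplicial d-polytopes: the lower limit of
log s(P) / log v(P) over all simplicial d-polytopes P as v(P) tends to infinity. -/
noncomputable def exponent (d : ℕ) : EReal :=
  ⨆ N : ℕ, ⨅ V : {V : Finset (Pt d) // IsVertexSet V ∧ Simplicial V ∧ N ≤ V.card},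
    ((Real.log (sphereNumber V.1) / Real.log V.1.card : ℝ) : EReal)

theorem realizes_le {d : ℕ} {V : Finset (Pt d)} {s : ℕ} (h : Realizes V s) : s ≤ V.card := by
  obtain ⟨W, c, r, -, ⟨f, hf, -⟩, -, -, T, hT, -, rfl⟩ := h
  refine (Finset.card_le_card hT).trans ?_
  have h1 : (W : Set (Pt d)) = f '' (V : Set (Pt d)) := hf.image_eq.symm
  classical
  have h2 : W = V.image f := by
    apply Finset.coe_injective
    rw [h1, Finset.coe_image]
  rw [h2]
  exact Finset.card_image_le

/-- For every d ≥ 4 the inscribability exponent of the simplicial d-polytopes, for realizations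
contained in the ball bounded by the sphere, is at most log 2 / log d, hence smaller than
log (d - 1) / log d. -/
theorem result (d : ℕ) (hd : 4 ≤ d) :
    exponent d ≤ ((Real.log 2 / Real.log d : ℝ) : EReal) ∧
      exponent d < ((Real.log ((d : ℝ) - 1) / Real.log d : ℝ) : EReal) := by
  have hd4 : (4 : ℝ) ≤ d := by exact_mod_cast hd
  have hlog : 0 < Real.log d := Real.log_pos (by linarith)
  have hκ : 0 ≤ Real.log 2 / Real.log d := div_nonneg (Real.log_nonneg (by norm_num)) hlog.le
  have main : exponent d ≤ ((Real.log 2 / Real.log d : ℝ) : EReal) := by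
    obtain ⟨C, hC0, hfin⟩ := Pool.Agent.V8H33.GJ.final Pool.Agent.V8H33.GJ.stmCount d (by omega)
    refine iSup_le (fun N => ?_)
    by_contra hcon
    push Not at hcon
    obtain ⟨z, hz1, hz2⟩ := EReal.lt_iff_exists_real_btwn.1 hcon
    have hz1' : Real.log 2 / Real.log d < z := by exact_mod_cast hz1
    set ε := z - Real.log 2 / Real.log d with hε
    have hε0 : 0 < ε := by rw [hε]; linarith
    set C' := max C 1 with hC'
    have hC'1 : 1 ≤ C' := le_max_right _ _
    obtain ⟨M, hM⟩ := exists_nat_gt (Real.exp (Real.log C' / ε))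
    obtain ⟨V, h1, h2, h3, h4, h5⟩ := hfin (max N (M + 2))
    have hNV : N ≤ V.card := (le_max_left _ _).trans h4
    have hMV : M + 2 ≤ V.card := (le_max_right _ _).trans h4
    have hV1 : (1 : ℝ) < V.card := by
      have : 2 ≤ V.card := by omega
      have : (2 : ℝ) ≤ V.card := by exact_mod_cast this
      linarith
    have hlV : 0 < Real.log V.card := Real.log_pos hV1
    have hbound : (sphereNumber V : ℝ) ≤ C' * (V.card : ℝ) ^ (Real.log 2 / Real.log d) := by
      have hne : {s | Realizes V s}.Nonempty ∨ {s | Realizes V s} = ∅ :=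
        (Set.eq_empty_or_nonempty _).symm
      rcases hne with hne | hne
      · have hmem : Realizes V (sphereNumber V) :=
          Nat.sSup_mem hne ⟨V.card, fun s hs => realizes_le hs⟩
        obtain ⟨W, c, r, -, ⟨f, hf, hf'⟩, hr, hb, T, hT, hTs, hTc⟩ := hmem
        have := h5 W f hf hf' c r hr hb T hT hTs
        rw [hTc] at this
        exact this.trans (mul_le_mul_of_nonneg_right (le_max_left _ _) (by positivity))
      · have : sphereNumber V = 0 := by
          rw [sphereNumber, hne]; simp
        rw [this]
        have : 0 ≤ C' * (V.card : ℝ) ^ (Real.log 2 / Real.log d) := by positivity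
        simpa using this
    have hratio : Real.log (sphereNumber V) / Real.log V.card ≤ z := by
      rcases Nat.eq_zero_or_pos (sphereNumber V) with h0 | h0
      · rw [h0]
        simp
        linarith
      · have h0' : (0 : ℝ) < sphereNumber V := by exact_mod_cast h0
        have hl := Real.log_le_log h0' hbound
        rw [Real.log_mul (by positivity) (by positivity), Real.log_rpow (by positivity)] at hl
        rw [div_le_iff₀ hlV]
        have hM' : Real.log C' / ε ≤ Real.log V.card := by
          have h6 : Real.exp (Real.log C' / ε) ≤ V.card := by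
            have : (M : ℝ) + 2 ≤ V.card := by exact_mod_cast hMV
            linarith
          have h7 := Real.log_le_log (Real.exp_pos _) h6
          rwa [Real.log_exp] at h7
        rw [div_le_iff₀ hε0] at hM'
        have hzz : z = ε + Real.log 2 / Real.log d := by rw [hε]; ring
        rw [hzz]
        nlinarith
    have hle : (⨅ V : {V : Finset (Pt d) // IsVertexSet V ∧ Simplicial V ∧ N ≤ V.card},
        ((Real.log (sphereNumber V.1) / Real.log V.1.card : ℝ) : EReal)) ≤ (z : EReal) :=
      (iInf_le _ ⟨V, ⟨h1, h2⟩, h3, hNV⟩).trans (by exact_mod_cast hratio)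
    exact absurd hz2 (not_lt.mpr hle)
  refine ⟨main, lt_of_le_of_lt main ?_⟩
  have : Real.log 2 / Real.log d < Real.log ((d : ℝ) - 1) / Real.log d := by
    rw [div_lt_div_iff_of_pos_right hlog]
    exact Real.log_lt_log (by norm_num) (by linarith)
  exact_mod_cast this

end Pool.Agent.Results.MP_1f68be_co.EnclosedExponent
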